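import Pool.Agent.H5.EG.Spec2

/-! Project EG of helper5: the statement `S_A` (descending induction over the scales). -/

set_option autoImplicit false

namespace Pool.Agent.H767.EG

open Pool.Agent.H5.EG

/-- the scales -/
def sc (M Λ k : ℕ) : ℕ := Λ ^ (4 * M ^ k)

lemma sc_succ (M Λ k : ℕ) : sc M Λ (k + 1) = sc M Λ k ^ M := by
  unfold sc
  rw [← pow_mul, pow_succ]
  congr 1
  ring

lemma sc_zero (M Λ : ℕ) : sc M Λ 0 = Λ ^ 4 := by simp [sc]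

lemma sc_ge {M Λ : ℕ} (hM : 1 ≤ M) (hΛ : 1 ≤ Λ) (k : ℕ) : Λ ^ 4 ≤ sc M Λ k := by
  unfold sc
  apply Nat.pow_le_pow_right hΛ
  have : 1 ≤ M ^ k := Nat.one_le_pow _ _ hM
  omega

/-- the claim at the scale `k` -/
def P {B : ℕ} (M Λ : ℕ) (F : Fin B → Fn) (W : PowerSeries ℤ) (k : ℕ) : Prop :=
  ∃ (T : Finset (Fin B)) (S : ℝ), (sc M Λ k : ℝ) ≤ S ∧ S ≤ (sc M Λ k : ℝ) ^ (2 * M) ∧
    RepF F W T ⌊S⌋₊ ∧ ∀ t ∈ T, mn (F t).s (1 - 1 / S) ≤ (Λ : ℝ) ^ 2 * Real.log S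

/-- the result of a step at the scale `k` -/
def Q {B : ℕ} (M Λ : ℕ) (F : Fin B → Fn) (W : PowerSeries ℤ) (k : ℕ) : Prop :=
  ∃ X : ℕ, sc M Λ k ≤ X ∧ X ≤ sc M Λ k ^ (6 ^ B) ∧ ∃ T : Finset (Fin B), IndF F T X ∧
    RepF F W T (X ^ 6) ∧
    ∀ t ∈ T, mn (F t).s (1 - 1 / (X : ℝ) ^ 2) ≤ (Λ : ℝ) ^ 2 * Real.log ((X : ℝ) ^ 2)

lemma RepF.mono' {B : ℕ} {F : Fin B → Fn} {W : PowerSeries ℤ} {T : Finset (Fin B)} {n m : ℕ}
    (h : RepF F W T n) (hm : m ≤ n) : RepF F W T m := by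
  obtain ⟨c, hc⟩ := h
  exact ⟨c, fun k hk => hc k (lt_of_lt_of_le hk hm)⟩

lemma P_of_Q {B : ℕ} {M Λ : ℕ} {F : Fin B → Fn} {W : PowerSeries ℤ} {k : ℕ} (hΛ : 1 ≤ Λ)
    (hM : M = 6 ^ (B + 1)) (h : Q M Λ F W k) : P M Λ F W k := by
  obtain ⟨X, h1, h2, T, -, h4, h5⟩ := h
  have hM1 : 1 ≤ M := by rw [hM]; exact Nat.one_le_pow _ _ (by norm_num)
  have hs : 1 ≤ sc M Λ k := le_trans (Nat.one_le_pow _ _ hΛ) (sc_ge hM1 hΛ k)
  have hX : 1 ≤ X := hs.trans h1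
  refine ⟨T, (X : ℝ) ^ 2, ?_, ?_, ?_, h5⟩
  · have : sc M Λ k ≤ X ^ 2 := h1.trans (by nlinarith)
    exact_mod_cast this
  · have : X ^ 2 ≤ sc M Λ k ^ (2 * M) := by
      calc X ^ 2 ≤ (sc M Λ k ^ (6 ^ B)) ^ 2 := Nat.pow_le_pow_left h2 2
        _ = sc M Λ k ^ (6 ^ B * 2) := by rw [← pow_mul]
        _ ≤ _ := by
          apply Nat.pow_le_pow_right hs
          rw [hM, pow_succ]
          have : 1 ≤ 6 ^ B := Nat.one_le_pow _ _ (by norm_num)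
          omega
    exact_mod_cast this
  · have e : ⌊(X : ℝ) ^ 2⌋₊ = X ^ 2 := by
      rw [← Nat.cast_pow]; exact Nat.floor_natCast _
    rw [e]
    exact RepF.mono' h4 (Nat.pow_le_pow_right hX (by norm_num))

lemma exists_P {B : ℕ} {M Λ : ℕ} {F : Fin B → Fn} {W : PowerSeries ℤ} (hΛ : 8 ≤ Λ)
    (hM : 2 ≤ M) (h : ∃ c : Fin B → ℂ, ∀ k, cf W k = ∑ t, c t * cf (F t).f k) :
    ∃ k : ℕ, P M Λ F W (1 + k) := by
  choose H hH using fun t => (F t).ch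
  obtain ⟨k, hk⟩ := exists_nat_ge (∑ t, |H t|)
  refine ⟨k, Finset.univ, sc M Λ (1 + k), le_rfl, ?_, ?_, ?_⟩
  · have h1 : 1 ≤ sc M Λ (1 + k) :=
      le_trans (Nat.one_le_pow _ _ (by omega)) (sc_ge (by omega) (by omega) _)
    have : (1 : ℝ) ≤ sc M Λ (1 + k) := by exact_mod_cast h1
    exact le_self_pow₀ this (by omega)
  · obtain ⟨c, hc⟩ := h
    exact ⟨c, fun j _ => hc j⟩
  · intro t _
    have h4096 : 8 ^ 4 ≤ sc M Λ (1 + k) :=
      le_trans (Nat.pow_le_pow_left hΛ 4) (sc_ge (by omega) (by omega) _)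
    have h2 : (2 : ℝ) ≤ sc M Λ (1 + k) := by
      have : 2 ≤ sc M Λ (1 + k) := le_trans (by norm_num) h4096
      exact_mod_cast this
    have hlt : (1 : ℝ) / sc M Λ (1 + k) ≤ 1 / 2 := by gcongr
    have hpos : (0 : ℝ) < 1 / sc M Λ (1 + k) := by positivity
    have h3 := hH t (1 - 1 / (sc M Λ (1 + k) : ℝ)) (by linarith) (by linarith)
    refine h3.trans ?_
    have h4 : H t ≤ k := by
      refine le_trans (le_abs_self _) (le_trans ?_ hk)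
      exact Finset.single_le_sum (f := fun t => |H t|) (fun i _ => abs_nonneg _) (Finset.mem_univ t)
    refine h4.trans ?_
    have h5 : (sc M Λ (1 + k) : ℝ) = (Λ : ℝ) ^ (4 * M ^ (1 + k)) := by
      unfold sc; push_cast; rfl
    rw [h5, Real.log_pow]
    have h6 : (1 : ℝ) / 2 ≤ Real.log Λ := by
      have h7 : Real.log 2 ≤ Real.log Λ := by
        apply Real.log_le_log (by norm_num)
        have : (8 : ℝ) ≤ Λ := by exact_mod_cast hΛ
        linarith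
      have h8 := Real.log_two_gt_d9
      linarith
    have h9 : (k : ℝ) ≤ (M : ℝ) ^ (1 + k) := by
      have : k ≤ M ^ (1 + k) := by
        have h10 : 1 + k < M ^ (1 + k) := Nat.lt_pow_self (by omega)
        omega
      exact_mod_cast this
    have h11 : (1 : ℝ) ≤ (Λ : ℝ) ^ 2 := by
      have : (8 : ℝ) ≤ Λ := by exact_mod_cast hΛ
      nlinarith
    push_cast
    have h12 : (0 : ℝ) ≤ (M : ℝ) ^ (1 + k) := by positivity
    calc (k : ℝ) ≤ 1 * (4 * (M : ℝ) ^ (1 + k) * (1 / 2)) := by nlinarith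
      _ ≤ (Λ : ℝ) ^ 2 * (4 * (M : ℝ) ^ (1 + k) * Real.log Λ) := by gcongr

lemma pow_ge {N : ℝ} (hN : 2 ≤ N) {n : ℕ} (hn : (n : ℝ) ≤ N) : 1 / 8 ≤ (1 - 1 / N) ^ n := by
  have h0 : (0 : ℝ) < N := by linarith
  have hx : 1 / N ≤ 1 / 2 := by gcongr
  have hx0 : 0 < 1 / N := by positivity
  have h1 : Real.exp (-(2 * (1 / N))) ≤ 1 - 1 / N := by
    rw [Real.exp_neg, inv_le_comm₀ (Real.exp_pos _) (by linarith)]
    refine le_trans ?_ (Real.add_one_le_exp _)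
    rw [inv_le_comm₀ (by linarith) (by linarith), inv_le_iff_one_le_mul₀ (by linarith)]
    nlinarith
  calc (1 : ℝ) / 8 ≤ Real.exp (-2) := by
        rw [Real.exp_neg, one_div]
        apply inv_anti₀ (Real.exp_pos _)
        have := Real.exp_one_lt_d9
        have h2 : Real.exp 2 = Real.exp 1 * Real.exp 1 := by rw [← Real.exp_add]; norm_num
        rw [h2]
        nlinarith [Real.exp_pos 1]
    _ ≤ Real.exp (-(2 * (1 / N))) ^ n := by
        rw [← Real.exp_nat_mul]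
        apply Real.exp_le_exp.mpr
        have : (n : ℝ) * (1 / N) ≤ 1 := by
          rw [mul_one_div, div_le_one h0]; exact hn
        nlinarith
    _ ≤ _ := by gcongr

theorem A_ (h1 : S_step) (h2 : S_fcoef) : S_A := by
  intro B
  obtain ⟨Λ₁, hΛ₁⟩ := h1 B
  refine ⟨max Λ₁ 8, fun Λ hΛ F W hW hG hrep => ?_⟩
  have hΛ8 : 8 ≤ Λ := le_of_max_le_right hΛ
  have hstep := hΛ₁ Λ (le_of_max_le_left hΛ) F W
  obtain ⟨M, hM⟩ : ∃ M, M = 6 ^ (B + 1) := ⟨_, rfl⟩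
  have hM6 : 6 ≤ M := by
    rw [hM]
    calc 6 = 6 ^ 1 := by norm_num
      _ ≤ 6 ^ (B + 1) := Nat.pow_le_pow_right (by norm_num) (by omega)
  rw [← hM] at hstep
  -- one step
  have key : ∀ k, P M Λ F W (k + 1) → Q M Λ F W k := by
    rintro k ⟨T, S, hS1, hS2, hR, hm⟩
    obtain ⟨X, hX1, hX2, T', -, hI, hR', hm'⟩ := hstep T (sc M Λ k) S hW hG
      (sc_ge (by omega) (by omega) k)
      (by
        rw [sc_succ] at hS1
        push_cast at hS1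
        exact hS1)
      (by
        rw [sc_succ] at hS2
        push_cast at hS2
        rw [← pow_mul] at hS2
        have : M * (2 * M) = 2 * M ^ 2 := by ring
        rwa [this] at hS2) hR hm
    exact ⟨X, hX1, hX2, T', hI, hR', hm'⟩
  have down : ∀ k, P M Λ F W (1 + k) → P M Λ F W 1 := by
    intro k
    induction k with
    | zero => exact id
    | succ k ih => exact fun h => ih (P_of_Q (by omega) hM (key (1 + k) h))
  obtain ⟨k, hk⟩ := exists_P hΛ8 (by omega : 2 ≤ M) hrep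
  obtain ⟨X, hX1, hX2, T, hI, hR, hm⟩ := key 0 (down k hk)
  rw [sc_zero] at hX1 hX2
  rw [← pow_mul] at hX2
  refine ⟨T, X, hX1, hX2, hI, hR, fun t ht n hn => ?_⟩
  have hX4096 : 4096 ≤ X := by
    calc 4096 = 8 ^ 4 := by norm_num
      _ ≤ Λ ^ 4 := Nat.pow_le_pow_left hΛ8 4
      _ ≤ X := hX1
  have hXr : (4096 : ℝ) ≤ X := by exact_mod_cast hX4096
  have hX0 : (0 : ℝ) < X := by linarith
  have hN : (2 : ℝ) ≤ (X : ℝ) ^ 2 := by nlinarith
  have hx : 1 / (X : ℝ) ^ 2 ≤ 1 / 2 := by gcongr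
  have hx0 : 0 < 1 / (X : ℝ) ^ 2 := by positivity
  have h3 := (h2 (F t) (1 - 1 / (X : ℝ) ^ 2) ((1 - 1 / (X : ℝ) ^ 2) / 2) _ (by linarith)
    (by linarith) (by linarith) (hm t ht)).1 n
  have hn' : (n : ℝ) ≤ (X : ℝ) ^ 2 := by exact_mod_cast hn
  have h4 := pow_ge hN hn'
  have habs : (0 : ℝ) ≤ |((F t).s n : ℝ)| := abs_nonneg _
  have h5 : |((F t).s n : ℝ)| ≤ 16 * n * ((Λ : ℝ) ^ 2 * Real.log ((X : ℝ) ^ 2)) := by
    have : |((F t).s n : ℝ)| * (1 / 8) ≤ |((F t).s n : ℝ)| * (1 - 1 / (X : ℝ) ^ 2) ^ n := by gcongr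
    linarith
  have hL : (Λ : ℝ) ^ 2 ≤ X := by
    have : Λ ^ 2 ≤ X := le_trans (Nat.pow_le_pow_right (by omega) (by norm_num)) hX1
    exact_mod_cast this
  have hsq : Real.sqrt X ^ 2 = X := Real.sq_sqrt hX0.le
  have hs64 : (64 : ℝ) ≤ Real.sqrt X := by
    rw [show (64 : ℝ) = Real.sqrt 4096 by
      rw [show (4096 : ℝ) = 64 ^ 2 by norm_num, Real.sqrt_sq (by norm_num)]]
    exact Real.sqrt_le_sqrt hXr
  have hlog : Real.log ((X : ℝ) ^ 2) ≤ X / 16 := by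
    rw [Real.log_pow]
    have h6 : Real.log X = 2 * Real.log (Real.sqrt X) := by
      have : Real.log (Real.sqrt X ^ 2) = 2 * Real.log (Real.sqrt X) := by
        rw [Real.log_pow]; norm_num
      rwa [hsq] at this
    have h7 : Real.log (Real.sqrt X) ≤ Real.sqrt X := by
      have := Real.log_le_sub_one_of_pos (Real.sqrt_pos.mpr hX0)
      linarith
    rw [h6]
    push_cast
    nlinarith
  have hlog0 : 0 ≤ Real.log ((X : ℝ) ^ 2) := Real.log_nonneg (by linarith)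
  have h8 : |((F t).s n : ℝ)| ≤ (X : ℝ) ^ 4 := by
    calc |((F t).s n : ℝ)| ≤ 16 * n * ((Λ : ℝ) ^ 2 * Real.log ((X : ℝ) ^ 2)) := h5
      _ ≤ 16 * (X : ℝ) ^ 2 * (X * (X / 16)) := by gcongr
      _ = (X : ℝ) ^ 4 := by ring
  exact_mod_cast h8

end Pool.Agent.H767.EG

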