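import Pool.Agent.H5.EG.Spec3

set_option autoImplicit false

namespace Pool.Agent.H767.EG.Rat

open Pool.Agent.H5.EG Polynomial

/-- cleared derivative of the product -/
lemma hasDerivAt_PR (K : Finset ℕ) (e : ℕ → ℝ) (x : ℝ) (hK : 0 ∉ K) (hx0 : 0 < x) (hx1 : x < 1) :
    ∃ g' : ℝ, HasDerivAt (PR K e) g' x ∧
      (∏ k ∈ K, (1 - x ^ k)) * g' =
        PR K e x * ∑ k ∈ K, e k * (-((k : ℝ) * x ^ (k - 1))) * ∏ j ∈ K.erase k, (1 - x ^ j) := by
  have hpos : ∀ k ∈ K, 0 < 1 - x ^ k := by
    intro k hk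
    have hk0 : k ≠ 0 := fun h => hK (h ▸ hk)
    have := pow_lt_one₀ hx0.le hx1 hk0
    linarith
  have hd : ∀ k ∈ K, HasDerivAt (fun y : ℝ => (1 - y ^ k) ^ (e k))
      (-((k : ℝ) * x ^ (k - 1)) * e k * (1 - x ^ k) ^ (e k - 1)) x := by
    intro k hk
    have h1 : HasDerivAt (fun y : ℝ => 1 - y ^ k) (-((k : ℝ) * x ^ (k - 1))) x :=
      (hasDerivAt_pow k x).const_sub 1
    exact h1.rpow_const (Or.inl (hpos k hk).ne')
  have hprod := HasDerivAt.fun_finsetProd (u := K) (f := fun k y => (1 - y ^ k) ^ (e k)) hd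
  refine ⟨_, hprod, ?_⟩
  rw [Finset.mul_sum, Finset.mul_sum]
  apply Finset.sum_congr rfl
  intro k hk
  have h1 : ∏ k ∈ K, (1 - x ^ k) = (1 - x ^ k) * ∏ j ∈ K.erase k, (1 - x ^ j) :=
    (Finset.mul_prod_erase K (fun k => 1 - x ^ k) hk).symm
  have h2 : PR K e x = (1 - x ^ k) ^ (e k) * ∏ j ∈ K.erase k, (1 - x ^ j) ^ (e j) :=
    (Finset.mul_prod_erase K (fun k => (1 - x ^ k) ^ (e k)) hk).symm
  have h3 : (1 - x ^ k) * (1 - x ^ k) ^ (e k - 1) = (1 - x ^ k) ^ (e k) := by
    rw [Real.rpow_sub_one (hpos k hk).ne']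
    field_simp [(hpos k hk).ne']
  rw [h1, h2, ← h3, smul_eq_mul]
  ring

lemma PR_pos (K : Finset ℕ) (e : ℕ → ℝ) (x : ℝ) (hK : 0 ∉ K) (hx0 : 0 < x) (hx1 : x < 1) :
    0 < PR K e x := by
  apply Finset.prod_pos
  intro k hk
  have hk0 : k ≠ 0 := fun h => hK (h ▸ hk)
  have := pow_lt_one₀ hx0.le hx1 hk0
  exact Real.rpow_pos_of_pos (by linarith) _

lemma poly_id (K : Finset ℕ) (e : ℕ → ℝ) (A B : ℝ[X]) (u v : ℝ) (hK : 0 ∉ K) (hu : 0 ≤ u)
    (huv : u < v) (hv : v ≤ 1)
    (h : ∀ x : ℝ, u < x → x < v → PR K e x * B.eval x = A.eval x) :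
    (∏ k ∈ K, (1 - X ^ k : ℝ[X])) * derivative A * B =
      A * (∑ k ∈ K, C (e k) * derivative (1 - X ^ k : ℝ[X]) * ∏ j ∈ K.erase k, (1 - X ^ j : ℝ[X])) * B
      + A * (∏ k ∈ K, (1 - X ^ k : ℝ[X])) * derivative B := by
  rw [← sub_eq_zero]
  apply Polynomial.eq_zero_of_infinite_isRoot
  apply Set.Infinite.mono _ (Set.Ioo_infinite huv)
  intro x hx
  have hx0 : 0 < x := lt_of_le_of_lt hu hx.1
  have hx1 : x < 1 := lt_of_lt_of_le hx.2 hv
  obtain ⟨g', hg, hgQ⟩ := hasDerivAt_PR K e x hK hx0 hx1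
  have h1 : HasDerivAt (fun y => PR K e y * B.eval y)
      (g' * B.eval x + PR K e x * (derivative B).eval x) x := hg.mul (B.hasDerivAt x)
  have h2 : HasDerivAt (fun y => PR K e y * B.eval y) ((derivative A).eval x) x := by
    apply (A.hasDerivAt x).congr_of_eventuallyEq
    filter_upwards [Ioo_mem_nhds hx.1 hx.2] with y hy
    exact h y hy.1 hy.2
  have h3 := h1.unique h2
  have h4 := h x hx.1 hx.2
  show Polynomial.IsRoot _ x
  simp only [IsRoot.def, eval_sub, eval_mul, eval_add, eval_prod, eval_finsetSum, eval_one, eval_pow,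
    eval_X, eval_C, derivative_sub, derivative_one, derivative_X_pow, zero_sub, eval_neg,
    eval_natCast, map_natCast]
  rw [← h3, ← h4]
  linear_combination (B.eval x) * (B.eval x) * hgQ

lemma mult (m k : ℕ) (z : ℂ) (hz : IsPrimitiveRoot z m) (hk : k ≠ 0) :
    (1 - X ^ k : ℂ[X]).rootMultiplicity z = if m ∣ k then 1 else 0 := by
  have hne : (1 - X ^ k : ℂ[X]) ≠ 0 := by
    intro h0
    have := congrArg (eval 0) h0
    simp [hk] at this
  split_ifs with h
  · have h1 : z ^ k = 1 := (hz.pow_eq_one_iff_dvd k).2 h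
    have hroot : (1 - X ^ k : ℂ[X]).IsRoot z := by
      simp [h1]
    have hp := (rootMultiplicity_pos hne).2 hroot
    have hl : ¬ 1 < (1 - X ^ k : ℂ[X]).rootMultiplicity z := by
      rw [one_lt_rootMultiplicity_iff_isRoot hne]
      rintro ⟨_, h2⟩
      have hz0 : z ≠ 0 := by
        rintro rfl
        rw [zero_pow hk] at h1
        exact zero_ne_one h1
      rw [IsRoot.def, derivative_sub, derivative_one, derivative_X_pow] at h2
      simp [hz0, hk] at h2
    omega
  · apply rootMultiplicity_eq_zero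
    intro h2
    apply h
    rw [← hz.pow_eq_one_iff_dvd k]
    simp only [IsRoot.def, eval_sub, eval_one, eval_pow, eval_X, sub_eq_zero] at h2
    exact h2.symm

theorem rat (hres : S_resid) : S_rat := by
  intro K e A B u v hK hu huv hv hB h
  have hid := poly_id K e A B u v hK hu huv hv h
  -- A is not zero
  have hA : A ≠ 0 := by
    rintro rfl
    apply hB
    apply Polynomial.eq_zero_of_infinite_isRoot
    apply Set.Infinite.mono _ (Set.Ioo_infinite huv)
    intro x hx
    have h1 := h x hx.1 hx.2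
    rw [eval_zero] at h1
    exact (mul_eq_zero.1 h1).resolve_left
      (PR_pos K e x hK (lt_of_le_of_lt hu hx.1) (lt_of_lt_of_le hx.2 hv)).ne'
  -- data for the residue lemma
  let F : ℕ ⊕ Bool → ℝ[X] := Sum.elim (fun k => 1 - X ^ k) (fun b => if b then A else B)
  let l : ℕ ⊕ Bool → ℝ := Sum.elim (fun k => e k) (fun b => if b then -1 else 1)
  let I : Finset (ℕ ⊕ Bool) := K.disjSum Finset.univ
  have hF : ∀ i ∈ I, F i ≠ 0 := by
    rintro (k | b) hi
    · have hk : k ∈ K := by simpa [I] using hi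
      have hk0 : k ≠ 0 := fun h => hK (h ▸ hk)
      intro h0
      have := congrArg (eval 0) h0
      simp [F, hk0] at this
    · cases b
      · simpa [F] using hB
      · simpa [F] using hA
  have hE1 : ∀ k ∈ K, I.erase (Sum.inl k) = (K.erase k).disjSum Finset.univ := by
    intro k _
    ext (j | b) <;> simp [I]
  have hE2 : ∀ b : Bool, I.erase (Sum.inr b) = K.disjSum (Finset.univ.erase b) := by
    intro b
    ext (j | b') <;> simp [I]
  have hEt : (Finset.univ : Finset Bool).erase true = {false} := by decide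
  have hEf : (Finset.univ : Finset Bool).erase false = {true} := by decide
  have hsumR : ∑ i ∈ I, C (l i) * derivative (F i) * ∏ j ∈ I.erase i, F j = 0 := by
    have e1 : ∀ i ∈ K, C (l (Sum.inl i)) * derivative (F (Sum.inl i)) *
        ∏ j ∈ I.erase (Sum.inl i), F j =
        C (e i) * derivative (1 - X ^ i : ℝ[X]) * (∏ j ∈ K.erase i, (1 - X ^ j : ℝ[X])) * (A * B) := by
      intro i hi
      rw [hE1 i hi, Finset.prod_disjSum]
      simp [F, l]
      ring
    rw [Finset.sum_disjSum, Finset.sum_congr rfl e1, ← Finset.sum_mul, Fintype.sum_bool,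
      hE2, hE2, hEt, hEf, Finset.prod_disjSum, Finset.prod_disjSum]
    simp only [F, l, Sum.elim_inl, Sum.elim_inr, if_true, Bool.false_eq_true, if_false,
      Finset.prod_singleton, C_neg, C_1]
    linear_combination -hid
  -- transfer to ℂ
  have key : ∀ m : ℕ, m ≠ 0 → ∃ n : ℤ, ∑ k ∈ K with m ∣ k, e k = n := by
    intro m hm
    have hz := Complex.isPrimitiveRoot_exp m hm
    set z := Complex.exp (2 * Real.pi * Complex.I / m) with hzdef
    have h1 := hres (ℕ ⊕ Bool) I (fun i => ((l i : ℝ) : ℂ))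
      (fun i => (F i).map Complex.ofRealHom) z
      (fun i hi => (Polynomial.map_ne_zero_iff Complex.ofRealHom.injective).2 (hF i hi)) ?_
    · rw [Finset.sum_disjSum, Fintype.sum_bool] at h1
      have h2 : ∀ k ∈ K, ((l (Sum.inl k) : ℝ) : ℂ) *
          (((F (Sum.inl k)).map Complex.ofRealHom).rootMultiplicity z : ℂ) =
          ((if m ∣ k then e k else 0 : ℝ) : ℂ) := by
        intro k hk
        have hk0 : k ≠ 0 := fun h => hK (h ▸ hk)
        have h3 : (F (Sum.inl k)).map Complex.ofRealHom = (1 - X ^ k : ℂ[X]) := by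
          simp [F]
        rw [h3, mult m k z hz hk0]
        split_ifs <;> simp [l]
      rw [Finset.sum_congr rfl h2] at h1
      simp only [l, Sum.elim_inr, if_true, Bool.false_eq_true, if_false] at h1
      refine ⟨(((F (Sum.inr true)).map Complex.ofRealHom).rootMultiplicity z : ℤ) -
        (((F (Sum.inr false)).map Complex.ofRealHom).rootMultiplicity z : ℤ), ?_⟩
      rw [Finset.sum_filter]
      have h4 : ((∑ k ∈ K, (if m ∣ k then e k else 0) : ℝ) : ℂ) =
        ((((((F (Sum.inr true)).map Complex.ofRealHom).rootMultiplicity z : ℤ) -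
        (((F (Sum.inr false)).map Complex.ofRealHom).rootMultiplicity z : ℤ) : ℤ) : ℝ) : ℂ) := by
        push_cast
        push_cast at h1
        linear_combination h1
      exact_mod_cast h4
    · have h5 := congrArg (Polynomial.map Complex.ofRealHom) hsumR
      rw [Polynomial.map_sum, Polynomial.map_zero] at h5
      rw [← h5]
      apply Finset.sum_congr rfl
      intro i _
      rw [Polynomial.map_mul, Polynomial.map_mul, Polynomial.map_prod, derivative_map, map_C]
      rfl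
  -- downward induction
  by_contra hcon
  push Not at hcon
  obtain ⟨k₀, hk₀, hbad⟩ := hcon
  classical
  let S := K.filter (fun k => ∀ n : ℤ, e k ≠ n)
  have hS : S.Nonempty := ⟨k₀, Finset.mem_filter.2 ⟨hk₀, hbad⟩⟩
  obtain ⟨k, hkS, hmax⟩ := S.exists_max_image id hS
  obtain ⟨hkK, hkb⟩ := Finset.mem_filter.1 hkS
  have hk0 : k ≠ 0 := fun h => hK (h ▸ hkK)
  obtain ⟨n, hn⟩ := key k hk0
  have hmem : k ∈ K.filter (fun j => k ∣ j) := Finset.mem_filter.2 ⟨hkK, dvd_rfl⟩
  rw [← Finset.add_sum_erase _ _ hmem] at hn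
  have hrest : ∑ j ∈ (K.filter (fun j => k ∣ j)).erase k, e j ∈ (Int.castAddHom ℝ).range := by
    apply sum_mem
    intro j hj
    rw [Finset.mem_erase, Finset.mem_filter] at hj
    obtain ⟨hjk, hjK, hdvd⟩ := hj
    by_contra hnot
    have hj0 : j ≠ 0 := fun h => hK (h ▸ hjK)
    have hle := Nat.le_of_dvd (Nat.pos_of_ne_zero hj0) hdvd
    have hjS : j ∈ S := by
      refine Finset.mem_filter.2 ⟨hjK, fun n' hn' => hnot ⟨n', ?_⟩⟩
      simpa using hn'.symm
    have := hmax j hjS
    simp only [id] at this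
    omega
  obtain ⟨n', hn'⟩ := hrest
  apply hkb (n - n')
  push_cast
  have : (n' : ℝ) = ∑ j ∈ (K.filter (fun j => k ∣ j)).erase k, e j := by
    simpa using hn'
  rw [this]
  linarith

end Pool.Agent.H767.EG.Rat
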